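import Pool.Agent.Helper92.BW.GoalsB
import Pool.Agent.Helper82.FR.BIG
import Pool.Agent.Helper60.FR.CPV
import Pool.Agent.Helper24.FR.VAL0

/-!
# Volumes of polytopes of bounded elimination width: the rounding (packet RND)
-/

namespace Pool.Agent.Helper67.BW

open MeasureTheory Pool.Agent.Helper81.CC Pool.Agent.Bin Pool.Agent.Helper92.VP
open Pool.Agent.Helper92.BW
open Pool.Agent.Helper92.FR hiding DepStmt

noncomputable section

/-! ### Numbers -/

theorem sum_w (d : ℕ) (φ : Fin (d + 1) → ℝ) (m : ℝ)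
    (hm : m = (∑ i, φ i) / ((d : ℝ) + 1)) :
    ∑ i, (φ i - min m 0) = ((d : ℝ) + 1) * (m - min m 0) := by
  have h1 : (0 : ℝ) < (d : ℝ) + 1 := by positivity
  have h2 : ∑ i, φ i = ((d : ℝ) + 1) * m := by rw [hm]; field_simp
  rw [Finset.sum_sub_distrib, h2, Finset.sum_const, Finset.card_univ, Fintype.card_fin,
    nsmul_eq_mul]
  push_cast
  ring

theorem qc_cast (d : ℕ) : (qc d : ℝ) = 4 * ((d : ℝ) + 1) ^ 2 := by
  unfold qc
  push_cast
  ring

theorem weights (d : ℕ) (hd : 1 ≤ d) (φ : Fin (d + 1) → ℝ) (m : ℝ)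
    (hm : m = (∑ i, φ i) / ((d : ℝ) + 1))
    (b : Fin (d + 1) → ℝ) (hb1 : ∑ i, b i = 1) (hbφ : 0 ≤ ∑ i, b i * φ i)
    (i1 : Fin (d + 1)) (hbad : ((qc d : ℝ) - 1) * m + φ i1 < 0) :
    ∃ i, 0 < φ i - min m 0 ∧ ∑ i', (φ i' - min m 0) ≤ (φ i - min m 0) / 4 := by
  have hdr : (1 : ℝ) ≤ d := by exact_mod_cast hd
  have hd1 : (0 : ℝ) < (d : ℝ) + 1 := by positivity
  have hS : ∑ i, φ i = ((d : ℝ) + 1) * m := by rw [hm]; field_simp
  have hsum := sum_w d φ m hm
  obtain ⟨i0, -, hi0⟩ := Finset.exists_max_image Finset.univ φ ⟨i1, Finset.mem_univ _⟩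
  have hmax : ∀ i, φ i ≤ φ i0 := fun i => hi0 i (Finset.mem_univ i)
  refine ⟨i0, ?_⟩
  rw [hsum]
  rw [qc_cast] at hbad
  rcases le_or_gt m 0 with h0 | h0
  · rw [min_eq_left h0, sub_self, mul_zero]
    have hpos : 0 < φ i0 - m := by
      by_contra hcon
      have hle : ∀ i, φ i - m ≤ 0 := fun i => by linarith [hmax i, not_lt.1 hcon]
      have hz : ∑ i, (φ i - m) = 0 := by
        rw [min_eq_left h0, sub_self, mul_zero] at hsum
        exact hsum
      have heq : ∀ i, φ i = m := by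
        intro i
        have h1 := (Finset.sum_eq_zero_iff_of_nonpos (fun i _ => hle i)).1 hz i
          (Finset.mem_univ i)
        linarith
      have h2 : m < 0 := by
        rw [heq i1] at hbad
        have h3 : 4 * ((d : ℝ) + 1) ^ 2 * m < 0 := by linarith
        by_contra h4
        have h5 : 0 ≤ 4 * ((d : ℝ) + 1) ^ 2 * m := mul_nonneg (by positivity) (not_lt.1 h4)
        linarith
      have h6 : ∑ i, b i * φ i = m := by
        simp_rw [heq]
        rw [← Finset.sum_mul, hb1, one_mul]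
      linarith
    exact ⟨hpos, by linarith⟩
  · rw [min_eq_right h0.le, sub_zero, sub_zero]
    have h1 : ∑ i, φ i ≤ φ i1 + d * φ i0 := by
      rw [← Finset.add_sum_erase _ _ (Finset.mem_univ i1)]
      have h2 : ∑ i ∈ Finset.univ.erase i1, φ i ≤ (Finset.univ.erase i1).card • φ i0 :=
        Finset.sum_le_card_nsmul _ _ _ (fun i _ => hmax i)
      rw [Finset.card_erase_of_mem (Finset.mem_univ _), Finset.card_univ, Fintype.card_fin,
        nsmul_eq_mul, Nat.add_sub_cancel] at h2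
      linarith
    have h3 : 4 * d * ((d : ℝ) + 1) * m < d * φ i0 := by
      have h4 : 0 < ((4 * ((d : ℝ) + 1) ^ 2 - 1) + (d + 1) - 4 * d * (d + 1)) * m := by
        apply mul_pos _ h0
        nlinarith
      nlinarith
    have h5 : 4 * ((d : ℝ) + 1) * m < φ i0 := by
      have h6 : (d : ℝ) * (4 * ((d : ℝ) + 1) * m) < d * φ i0 := by linarith
      exact lt_of_mul_lt_mul_left h6 (by linarith)
    have h7 : 0 < ((d : ℝ) + 1) * m := mul_pos hd1 h0
    exact ⟨by linarith, by linarith⟩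

/-! ### One step -/

theorem ip_sum {d : ℕ} (a : Fin d → ℝ) (V : Fin (d + 1) → Fin d → ℝ) (b : Fin (d + 1) → ℝ)
    (x : Fin d → ℝ) (hx : ∀ l, x l = ∑ i, b i * V i l) :
    ip a x = ∑ i, b i * ip a (V i) := by
  unfold ip
  simp_rw [hx, Finset.mul_sum]
  rw [Finset.sum_comm]
  apply Finset.sum_congr rfl
  intro i _
  apply Finset.sum_congr rfl
  intro l _
  ring

theorem step (scv : ScvStmt) (bdv : BdvStmt) (scu : ScuStmt) (d : ℕ) (hd : 1 ≤ d) (st : Cst)
    (r : List Qn × Qn) (hst : CWf d st) (hr : r.1.length = d) :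
    CWf d (scut d st (phs d st r)) ∧
    CutS (VV d st) (VV d (scut d st (phs d st r))) (lv (d + 1) (phs d st r)) ∧
    0 ≤ ∑ i, lv (d + 1) (phs d st r) i ∧
    (∀ x, InS (VV d st) x → r.2.val ≤ ip (lv d r.1) x →
      InS (VV d (scut d st (phs d st r))) x) ∧
    ((hom (VV d st)).det ≠ 0 → (hom (VV d (scut d st (phs d st r)))).det ≠ 0) ∧
    (∀ x, InS (VV d st) x → r.2.val ≤ ip (lv d r.1) x → bad d st r = true →
      ∃ i, 0 < lv (d + 1) (phs d st r) i ∧
        ∑ i', lv (d + 1) (phs d st r) i' ≤ lv (d + 1) (phs d st r) i / 4) := by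
  obtain ⟨hphi, hphm, hbad, hlen, hphs⟩ := bdv d hd st r hst hr
  set φ : Fin (d + 1) → ℝ := fun i => ip (lv d r.1) (VV d st i) - r.2.val with hφ
  set m : ℝ := (phm d st r).val with hm
  have hw : ∀ i, lv (d + 1) (phs d st r) i = φ i - min m 0 := fun i => hphs i
  have hm' : m = (∑ i, φ i) / ((d : ℝ) + 1) := hphm
  have hsum : ∑ i, lv (d + 1) (phs d st r) i = ((d : ℝ) + 1) * (m - min m 0) := by
    simp_rw [hw]
    exact sum_w d φ m hm'
  have hnn : 0 ≤ ∑ i, lv (d + 1) (phs d st r) i := by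
    rw [hsum]
    exact mul_nonneg (by positivity) (sub_nonneg.2 (min_le_left _ _))
  obtain ⟨h1, h2⟩ := scv d hd st (phs d st r) hst hlen hnn
  obtain ⟨h3, h4, h5⟩ := scu d hd _ _ _ h2 hnn
  have hval : ∀ x, ∀ b : Fin (d + 1) → ℝ, ∑ i, b i = 1 →
      (∀ l, x l = ∑ i, b i * VV d st i l) → r.2.val ≤ ip (lv d r.1) x →
      0 ≤ ∑ i, b i * φ i := by
    intro x b hb1 hx hrx
    have h6 : ∑ i, b i * φ i = ip (lv d r.1) x - r.2.val := by
      rw [ip_sum _ _ b x hx]
      simp only [hφ, mul_sub, Finset.sum_sub_distrib]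
      rw [← Finset.sum_mul, hb1, one_mul]
    rw [h6]
    linarith
  refine ⟨h1, h2, hnn, ?_, h5, ?_⟩
  · rintro x ⟨b, hb, hb1, hx⟩ hrx
    have h7 : 0 ≤ ∑ i, b i * lv (d + 1) (phs d st r) i := by
      have h8 := hval x b hb1 hx hrx
      simp_rw [hw, mul_sub, Finset.sum_sub_distrib]
      rw [← Finset.sum_mul, hb1, one_mul]
      have h9 : min m 0 ≤ 0 := min_le_right _ _
      linarith
    have h10 := h3 b hb hb1 h7
    have h11 : x = fun l => ∑ i, b i * VV d st i l := funext hx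
    rw [h11]
    exact h10
  · rintro x ⟨b, hb, hb1, hx⟩ hrx hbd
    obtain ⟨i1, hi1⟩ := hbad.1 hbd
    obtain ⟨i, hi, hi'⟩ := weights d hd φ m hm' b hb1 (hval x b hb1 hx hrx) i1 hi1
    refine ⟨i, ?_, ?_⟩
    · rw [hw]
      exact hi
    · simp_rw [hw]
      exact hi'

/-! ### The first simplex -/

theorem ini_InS (d : ℕ) (hd : 1 ≤ d) (V : Fin (d + 1) → Fin d → ℝ) (B : ℝ) (hB : 0 < B)
    (hV : ∀ i l, V i l = if i.val = l.val + 1 then (2 * (d : ℝ) - 1) * B else -B)
    (x : Fin d → ℝ) (hx : ∀ l, |x l| ≤ B) : InS V x := by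
  have hdr : (1 : ℝ) ≤ d := by exact_mod_cast hd
  have hden : 0 < 2 * (d : ℝ) * B := by positivity
  refine ⟨Fin.cons (1 - ∑ l, (x l + B) / (2 * d * B)) (fun l => (x l + B) / (2 * d * B)),
    ?_, ?_, ?_⟩
  · intro i
    refine Fin.cases ?_ (fun l => ?_) i
    · rw [Fin.cons_zero, sub_nonneg, ← Finset.sum_div, div_le_one hden]
      calc ∑ l, (x l + B) ≤ ∑ l : Fin d, (2 * B) :=
            Finset.sum_le_sum fun l _ => by linarith [(abs_le.1 (hx l)).2]
        _ = 2 * d * B := by
            rw [Finset.sum_const, Finset.card_univ, Fintype.card_fin, nsmul_eq_mul]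
            ring
    · rw [Fin.cons_succ]
      exact div_nonneg (by linarith [(abs_le.1 (hx l)).1]) hden.le
  · rw [Fin.sum_univ_succ]
    simp only [Fin.cons_zero, Fin.cons_succ]
    ring
  · intro l
    rw [Fin.sum_univ_succ]
    simp only [Fin.cons_zero, Fin.cons_succ, hV]
    have h0 : ¬ ((0 : Fin (d + 1)).val = l.val + 1) := by simp
    rw [if_neg h0]
    have h1 : ∀ i : Fin d, (x i + B) / (2 * d * B) *
        (if (i.succ : Fin (d + 1)).val = l.val + 1 then (2 * (d : ℝ) - 1) * B else -B) =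
        (if i = l then x i + B else 0) - (x i + B) / (2 * d * B) * B := by
      intro i
      by_cases h : i = l
      · subst h
        simp only [Fin.val_succ, if_true]
        field_simp
      · have h2 : ¬ ((i.succ : Fin (d + 1)).val = l.val + 1) := by
          rw [Fin.val_succ]
          intro h3
          exact h (Fin.ext (by omega))
        rw [if_neg h2, if_neg h]
        ring
    simp_rw [h1]
    rw [Finset.sum_sub_distrib, Finset.sum_ite_eq' Finset.univ l, if_pos (Finset.mem_univ l),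
      ← Finset.sum_mul]
    ring

theorem ini_det (d : ℕ) (hd : 1 ≤ d) (V : Fin (d + 1) → Fin d → ℝ) (B : ℝ) (hB : 0 < B)
    (hV : ∀ i l, V i l = if i.val = l.val + 1 then (2 * (d : ℝ) - 1) * B else -B) :
    (hom V).det ≠ 0 := by
  have hdr : (1 : ℝ) ≤ d := by exact_mod_cast hd
  intro hdet
  obtain ⟨w, hw, hw0⟩ := Matrix.exists_mulVec_eq_zero_iff.2 hdet
  apply hw
  have hrow : ∀ i, w 0 + ∑ l : Fin d, V i l * w l.succ = 0 := by
    intro i
    have h1 := congrFun hw0 i
    simp only [Matrix.mulVec, dotProduct, hom, Pi.zero_apply] at h1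
    rw [Fin.sum_univ_succ] at h1
    simp only [Fin.cons_zero, Fin.cons_succ, one_mul] at h1
    exact h1
  have h0 : w 0 + ∑ l : Fin d, (-B) * w l.succ = 0 := by
    have h1 := hrow 0
    have h2 : ∀ l : Fin d, V 0 l = -B := by
      intro l
      rw [hV, if_neg (by simp)]
    simp_rw [h2] at h1
    exact h1
  have hs : ∀ l : Fin d, w l.succ = 0 := by
    intro l
    have h1 := hrow l.succ
    have h2 : ∀ l' : Fin d, V l.succ l' * w l'.succ =
        (-B) * w l'.succ + if l' = l then 2 * d * B * w l'.succ else 0 := by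
      intro l'
      rw [hV]
      by_cases h : l' = l
      · subst h
        simp only [Fin.val_succ, if_true]
        ring
      · rw [if_neg h, if_neg, add_zero]
        rw [Fin.val_succ]
        intro h3
        exact h (Fin.ext (by omega))
    simp_rw [h2] at h1
    rw [Finset.sum_add_distrib, Finset.sum_ite_eq' Finset.univ l, if_pos (Finset.mem_univ l)] at h1
    have h3 : 2 * d * B * w l.succ = 0 := by linarith
    have h4 : (2 * d * B : ℝ) ≠ 0 := by positivity
    exact (mul_eq_zero.1 h3).resolve_left h4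
  funext i
  refine Fin.cases ?_ (fun l => ?_) i
  · simp_rw [hs, mul_zero] at h0
    simpa using h0
  · exact hs l

/-! ### The iteration -/

/-- The polyhedron of the rows. -/
def Sat (d : ℕ) (rows : List (List Qn × Qn)) : Set (Fin d → ℝ) :=
  {x | ∀ r ∈ rows, r.2.val ≤ ip (lv d r.1) x}

theorem rst_succ (d : ℕ) (rows : List (List Qn × Qn)) (B k : ℕ) :
    rst d rows B (k + 1) = rstep d rows (rst d rows B k) := by
  unfold rst
  rw [Function.iterate_succ_apply']

theorem inv (scv : ScvStmt) (bdv : BdvStmt) (scu : ScuStmt) (d : ℕ) (hd : 1 ≤ d)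
    (rows : List (List Qn × Qn)) (hrows : ∀ r ∈ rows, r.1.length = d) (B : ℕ)
    (hbox : ∀ x ∈ Sat d rows, ∀ l, |x l| ≤ 2 ^ B) (k : ℕ) :
    CWf d (rst d rows B k) ∧ (hom (VV d (rst d rows B k))).det ≠ 0 ∧
      ∀ x ∈ Sat d rows, InS (VV d (rst d rows B k)) x := by
  induction k with
  | zero =>
    obtain ⟨h1, h2⟩ := (Pool.Agent.Helper60.FR.cpv d hd).2 B
    have hB : (0 : ℝ) < 2 ^ B := by positivity
    exact ⟨h1, ini_det d hd _ _ hB h2, fun x hx => ini_InS d hd _ _ hB h2 x (hbox x hx)⟩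
  | succ k ih =>
    rw [rst_succ]
    unfold rstep
    cases hf : rows.find? (bad d (rst d rows B k)) with
    | none => exact ih
    | some r =>
      have hr := List.mem_of_find?_eq_some hf
      obtain ⟨h1, h2, h3, h4, h5, -⟩ := step scv bdv scu d hd _ r ih.1 (hrows r hr)
      exact ⟨h1, h5 ih.2.1, fun x hx => h4 x (ih.2.2 x hx) (hx r hr)⟩

theorem find_some (d : ℕ) (rows : List (List Qn × Qn)) (B T : ℕ)
    (hlast : rows.any (bad d (rst d rows B T)) = true) (k : ℕ) (hk : k ≤ T) :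
    ∃ r, rows.find? (bad d (rst d rows B k)) = some r := by
  cases hf : rows.find? (bad d (rst d rows B k)) with
  | some r => exact ⟨r, rfl⟩
  | none =>
    exfalso
    have h1 : ∀ j, rst d rows B (k + j) = rst d rows B k := by
      intro j
      induction j with
      | zero => rfl
      | succ j ih =>
        rw [← add_assoc, rst_succ, ih]
        unfold rstep
        rw [hf]
        rfl
    obtain ⟨j, rfl⟩ := Nat.exists_eq_add_of_le hk
    rw [h1] at hlast
    rw [List.find?_eq_none] at hf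
    obtain ⟨r, hr, hr'⟩ := List.any_eq_true.1 hlast
    exact hf r hr hr'

/-! ### The numbers -/

theorem big_T (d L : ℕ) (hd : 1 ≤ d) (hdL : d ≤ L) :
    16 * ((d : ℝ) + 1) ^ 2 * (d * Real.log (2 * d * 2 ^ (4 * L ^ 2) /
      (1 / 2 ^ (20 * (L + 1) ^ 3)))) < ((500 * (L + 1) ^ 6 : ℕ) : ℝ) := by
  have hdr : (1 : ℝ) ≤ d := by exact_mod_cast hd
  have hdL' : (d : ℝ) ≤ L := by exact_mod_cast hdL
  have h1 : (2 * (d : ℝ) * 2 ^ (4 * L ^ 2) / (1 / 2 ^ (20 * (L + 1) ^ 3))) ≤
      2 ^ (25 * (L + 1) ^ 3) := by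
    have h2 : (d : ℝ) ≤ 2 ^ L := by
      have h3 : d < 2 ^ d := Nat.lt_two_pow_self
      have h4 : 2 ^ d ≤ 2 ^ L := Nat.pow_le_pow_right (by norm_num) hdL
      exact_mod_cast (h3.le.trans h4)
    rw [div_div_eq_mul_div, div_one]
    calc 2 * (d : ℝ) * 2 ^ (4 * L ^ 2) * 2 ^ (20 * (L + 1) ^ 3)
        ≤ 2 * 2 ^ L * 2 ^ (4 * L ^ 2) * 2 ^ (20 * (L + 1) ^ 3) := by gcongr
      _ = 2 ^ (1 + L + 4 * L ^ 2 + 20 * (L + 1) ^ 3) := by rw [pow_add, pow_add, pow_add]; ring
      _ ≤ 2 ^ (25 * (L + 1) ^ 3) := by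
          apply pow_le_pow_right₀ (by norm_num)
          nlinarith [Nat.zero_le L, Nat.zero_le (L ^ 2), Nat.zero_le (L ^ 3)]
  have hpos : 0 < (2 * (d : ℝ) * 2 ^ (4 * L ^ 2) / (1 / 2 ^ (20 * (L + 1) ^ 3))) := by
    positivity
  have h5 : Real.log (2 * (d : ℝ) * 2 ^ (4 * L ^ 2) / (1 / 2 ^ (20 * (L + 1) ^ 3))) ≤
      25 * ((L : ℝ) + 1) ^ 3 := by
    refine (Real.log_le_log hpos h1).trans ?_
    rw [Real.log_pow]
    push_cast
    have h6 : Real.log 2 ≤ 1 := by
      have := Real.log_two_lt_d9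
      linarith
    have h7 : (0 : ℝ) ≤ 25 * ((L : ℝ) + 1) ^ 3 := by positivity
    nlinarith
  have h8 : (0 : ℝ) ≤ (L : ℝ) := by positivity
  calc 16 * ((d : ℝ) + 1) ^ 2 * (d * Real.log (2 * d * 2 ^ (4 * L ^ 2) /
      (1 / 2 ^ (20 * (L + 1) ^ 3))))
      ≤ 16 * ((L : ℝ) + 1) ^ 2 * ((L + 1) * (25 * ((L : ℝ) + 1) ^ 3)) := by
        have h9 : d * Real.log (2 * (d : ℝ) * 2 ^ (4 * L ^ 2) / (1 / 2 ^ (20 * (L + 1) ^ 3)))
            ≤ ((L : ℝ) + 1) * (25 * ((L : ℝ) + 1) ^ 3) := by
          calc d * Real.log (2 * (d : ℝ) * 2 ^ (4 * L ^ 2) / (1 / 2 ^ (20 * (L + 1) ^ 3)))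
              ≤ d * (25 * ((L : ℝ) + 1) ^ 3) :=
                mul_le_mul_of_nonneg_left h5 (by linarith)
            _ ≤ ((L : ℝ) + 1) * (25 * ((L : ℝ) + 1) ^ 3) := by gcongr; linarith
        have h10 : 16 * ((d : ℝ) + 1) ^ 2 ≤ 16 * ((L : ℝ) + 1) ^ 2 := by gcongr
        calc _ ≤ 16 * ((d : ℝ) + 1) ^ 2 * (((L : ℝ) + 1) * (25 * ((L : ℝ) + 1) ^ 3)) :=
              mul_le_mul_of_nonneg_left h9 (by positivity)
          _ ≤ _ := mul_le_mul_of_nonneg_right h10 (by positivity)
    _ = 400 * ((L : ℝ) + 1) ^ 6 := by ring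
    _ < ((500 * (L + 1) ^ 6 : ℕ) : ℝ) := by
        push_cast
        have h11 : (0 : ℝ) < ((L : ℝ) + 1) ^ 6 := by positivity
        linarith

/-! ### The rows of a system -/

theorem val_ofRQ' (q : RQ) : Qn.val (ofRQ q) = RQ.val q := by
  obtain ⟨s, ⟨a⟩, ⟨c⟩⟩ := q
  unfold ofRQ
  split_ifs with h1 h2
  · simp only at h1
    have h3 : c = 0 := by
      have := congrArg BN.val h1
      simpa using this
    subst h3
    rw [Qn.val_zero]
    simp [RQ.val]
  · have h3 : c ≠ 0 := fun h => h1 (by subst h; rfl)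
    have h4 : ((c - 1 : ℕ) : ℝ) + 1 = c := by
      have : c - 1 + 1 = c := by omega
      exact_mod_cast this
    simp only at h2
    simp only [Qn.val, RQ.val, BN.val_sub, h2, if_true]
    rw [h4]
    push_cast
    ring
  · have h3 : c ≠ 0 := fun h => h1 (by subst h; rfl)
    have h4 : ((c - 1 : ℕ) : ℝ) + 1 = c := by
      have : c - 1 + 1 = c := by omega
      exact_mod_cast this
    simp only [Bool.not_eq_true] at h2
    simp only [Qn.val, RQ.val, BN.val_sub, h2]
    rw [h4]
    simp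

theorem rowsQ_length (S : Sys) : ∀ r ∈ rowsQ S, r.1.length = S.1 := by
  intro r hr
  unfold rowsQ at hr
  obtain ⟨r', -, rfl⟩ := List.mem_map.1 hr
  simp

theorem sol_eq (S : Sys) : sol S = Sat S.1 (rowsQ S) := by
  ext x
  unfold sol Sat rowsQ
  simp only [Set.mem_ofPred_eq, List.forall_mem_map]
  refine forall₂_congr fun r _ => ?_
  rw [val_ofRQ']
  unfold ip
  have h1 : ∀ j : Fin S.1, lv S.1 ((List.range S.1).map fun j => rco r j) j = coef r j := by
    intro j
    unfold lv
    rw [List.getD_eq_getElem _ _ (by simp)]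
    simp only [List.getElem_map, List.getElem_range]
    unfold rco coef
    rw [val_ofRQ']
  simp_rw [h1]

/-! ### The rounded system -/

theorem lv_uverts (d : ℕ) (hd : 1 ≤ d) (st : Cst) (hst : CWf d st) (i : Fin (d + 1))
    (l : Fin d) : lv d ((uverts d st).getD i []) l = VV d st i l - cent (VV d st) l := by
  have hc := (Pool.Agent.Helper60.FR.cpv d hd).1 st (List.replicate d Qn.zero) hst (by simp)
  obtain ⟨-, -, hc1, hc2⟩ := hc
  rw [← hc2]
  have hlen : (uverts d st).length = d + 1 := by simp [uverts]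
  have h1 : (uverts d st).getD i [] = List.zipWith Qn.sub (vert st i) (cen d st) := by
    rw [List.getD_eq_getElem _ _ (by rw [hlen]; exact i.2)]
    simp [uverts]
  have hv : (vert st i).length = d := by
    unfold vert
    rw [List.length_map]
    apply hst.2.1
    have hi : (i : ℕ) < st.1.length := by rw [hst.1]; exact i.2
    rw [List.getD_eq_getElem _ _ hi]
    exact List.getElem_mem _
  rw [h1]
  unfold VV lv
  rw [List.getD_eq_getElem _ _ (by rw [List.length_zipWith, hv, hc1]; simp),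
    List.getD_eq_getElem _ _ (by rw [hv]; exact l.2),
    List.getD_eq_getElem _ _ (by rw [hc1]; exact l.2), List.getElem_zipWith, Qn.val_sub]

theorem ip_sub {d : ℕ} (a x y : Fin d → ℝ) : ip a (fun l => x l - y l) = ip a x - ip a y := by
  unfold ip
  rw [← Finset.sum_sub_distrib]
  exact Finset.sum_congr rfl fun l _ => by ring

theorem ip_cent {d : ℕ} (a : Fin d → ℝ) (V : Fin (d + 1) → Fin d → ℝ) :
    ip a (cent V) = (∑ i, ip a (V i)) / ((d : ℝ) + 1) := by
  unfold ip cent
  rw [Finset.sum_comm, Finset.sum_div]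
  apply Finset.sum_congr rfl
  intro l _
  rw [← Finset.mul_sum, mul_div_assoc]

/-- The value at the centroid. -/
theorem crow_val (bdv : BdvStmt) (d : ℕ) (hd : 1 ≤ d) (st : Cst) (hst : CWf d st)
    (r : List Qn × Qn) (hr : r.1.length = d) :
    (Qn.sub (dot r.1 (cen d st)) r.2).val = (phm d st r).val ∧
      ip (lv d r.1) (cent (VV d st)) = (phm d st r).val + r.2.val := by
  have hc := (Pool.Agent.Helper60.FR.cpv d hd).1 st (List.replicate d Qn.zero) hst (by simp)
  obtain ⟨-, -, hc1, hc2⟩ := hc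
  obtain ⟨-, hphm, -, -, -⟩ := bdv d hd st r hst hr
  have h1 : ip (lv d r.1) (cent (VV d st)) = (phm d st r).val + r.2.val := by
    rw [hphm, ip_cent, Finset.sum_sub_distrib, Finset.sum_const, Finset.card_univ,
      Fintype.card_fin, nsmul_eq_mul]
    have h2 : ((d : ℝ) + 1) ≠ 0 := by positivity
    push_cast
    field_simp
    ring
  refine ⟨?_, h1⟩
  rw [Qn.val_sub, Pool.Agent.Helper24.FR.dot_val r.1 d (cen d st) hr hc1, hc2]
  unfold ip at h1
  rw [h1]
  ring

theorem not_bad (bdv : BdvStmt) (d : ℕ) (hd : 1 ≤ d) (st : Cst) (hst : CWf d st)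
    (r : List Qn × Qn) (hr : r.1.length = d) (hb : bad d st r = false) :
    0 ≤ (phm d st r).val ∧ ∀ i : Fin (d + 1), -(qc d : ℝ) * (phm d st r).val ≤
      ip (lv d r.1) (VV d st i) - r.2.val - (phm d st r).val := by
  obtain ⟨-, hphm, hbad, -, -⟩ := bdv d hd st r hst hr
  have h1 : ∀ i : Fin (d + 1), 0 ≤ ((qc d : ℝ) - 1) * (phm d st r).val +
      (ip (lv d r.1) (VV d st i) - r.2.val) := by
    intro i
    by_contra h2
    rw [hbad.2 ⟨i, not_le.1 h2⟩] at hb
    exact Bool.noConfusion hb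
  have hd1 : (0 : ℝ) < (d : ℝ) + 1 := by positivity
  refine ⟨?_, fun i => by linarith [h1 i]⟩
  have h3 : 0 ≤ ∑ i : Fin (d + 1), (((qc d : ℝ) - 1) * (phm d st r).val +
      (ip (lv d r.1) (VV d st i) - r.2.val)) := Finset.sum_nonneg fun i _ => h1 i
  rw [Finset.sum_add_distrib, Finset.sum_const, Finset.card_univ, Fintype.card_fin,
    nsmul_eq_mul] at h3
  have h4 : ∑ i, (ip (lv d r.1) (VV d st i) - r.2.val) = ((d : ℝ) + 1) * (phm d st r).val := by
    rw [hphm]
    field_simp
  rw [h4] at h3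
  push_cast at h3
  have h5 : 0 ≤ ((d : ℝ) + 1) * (qc d : ℝ) * (phm d st r).val := by linarith
  have h6 : 0 < ((d : ℝ) + 1) * (qc d : ℝ) := by
    rw [qc_cast]
    positivity
  exact nonneg_of_mul_nonneg_right h5 h6

theorem qc_pos (d : ℕ) : (0 : ℝ) < qc d := by
  rw [qc_cast]
  positivity

/-- A point satisfies the centred rows if and only if its translate is in the polyhedron. -/
theorem crows_iff (bdv : BdvStmt) (d : ℕ) (hd : 1 ≤ d) (st : Cst) (hst : CWf d st)
    (rows : List (List Qn × Qn)) (hrows : ∀ r ∈ rows, r.1.length = d) (x : Fin d → ℝ) :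
    (∀ r ∈ crows d st rows, -r.2.val ≤ ip (lv d r.1) x) ↔
      (x + cent (VV d st)) ∈ Sat d rows := by
  unfold crows Sat
  simp only [List.forall_mem_map, Set.mem_ofPred_eq]
  refine forall₂_congr fun r hr => ?_
  obtain ⟨h1, h2⟩ := crow_val bdv d hd st hst r (hrows r hr)
  have h3 : ip (lv d r.1) (x + cent (VV d st)) =
      ip (lv d r.1) x + ip (lv d r.1) (cent (VV d st)) := by
    unfold ip
    rw [← Finset.sum_add_distrib]
    exact Finset.sum_congr rfl fun l _ => by rw [Pi.add_apply]; ring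
  rw [h3, h1, h2]
  constructor <;> intro h <;> linarith

theorem rnd_aux (bdv : BdvStmt) (d : ℕ) (hd : 1 ≤ d) (st : Cst) (hst : CWf d st)
    (rows : List (List Qn × Qn)) (hrows : ∀ r ∈ rows, r.1.length = d)
    (hdet : (hom (VV d st)).det ≠ 0) (hin : ∀ x ∈ Sat d rows, InS (VV d st) x)
    (hb : rows.any (bad d st) = false) : Rnd d (crows d st rows) (uverts d st) := by
  have hbad : ∀ r ∈ rows, bad d st r = false := by
    intro r hr
    cases h : bad d st r with
    | false => rfl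
    | true =>
      rw [List.any_eq_true.2 ⟨r, hr, h⟩] at hb
      exact Bool.noConfusion hb
  have hc := (Pool.Agent.Helper60.FR.cpv d hd).1 st (List.replicate d Qn.zero) hst (by simp)
  obtain ⟨-, -, hc1, hc2⟩ := hc
  have hU := lv_uverts d hd st hst
  have hU' : ∀ i : Fin (d + 1), lv d ((uverts d st).getD i []) =
      fun l => VV d st i l - cent (VV d st) l := fun i => funext (hU i)
  refine ⟨?_, by simp [uverts], ?_, ?_, ?_, ?_, ?_, ?_⟩
  · unfold crows
    simp only [List.forall_mem_map]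
    exact hrows
  · unfold uverts
    simp only [List.forall_mem_map, List.mem_range]
    intro i hi
    have hv : (vert st i).length = d := by
      unfold vert
      rw [List.length_map]
      apply hst.2.1
      have hi : i < st.1.length := by rw [hst.1]; exact hi
      rw [List.getD_eq_getElem _ _ hi]
      exact List.getElem_mem _
    rw [List.length_zipWith, hv, hc1, min_self]
  · unfold crows
    simp only [List.forall_mem_map]
    intro r hr
    rw [(crow_val bdv d hd st hst r (hrows r hr)).1]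
    exact (not_bad bdv d hd st hst r (hrows r hr) (hbad r hr)).1
  · intro x hx
    obtain ⟨b, hb0, hb1, hbx⟩ := hin _ ((crows_iff bdv d hd st hst rows hrows x).1 hx)
    refine ⟨b, hb0, hb1, fun l => ?_⟩
    simp_rw [hU, mul_sub, Finset.sum_sub_distrib]
    rw [← Finset.sum_mul, hb1, one_mul, ← hbx l, Pi.add_apply]
    ring
  · intro i
    unfold crows
    simp only [List.forall_mem_map]
    intro r hr
    obtain ⟨h1, h2⟩ := crow_val bdv d hd st hst r (hrows r hr)
    rw [h1, hU', ip_sub, h2, le_div_iff₀ (qc_pos d)]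
    have h3 := (not_bad bdv d hd st hst r (hrows r hr) (hbad r hr)).2 i
    linarith
  · intro l
    simp_rw [hU, Finset.sum_sub_distrib]
    rw [Finset.sum_const, Finset.card_univ, Fintype.card_fin, nsmul_eq_mul]
    unfold cent
    push_cast
    have h2 : ((d : ℝ) + 1) ≠ 0 := by positivity
    field_simp
    ring
  · intro w hw
    by_contra hne
    apply hdet
    apply Matrix.exists_mulVec_eq_zero_iff.1
    refine ⟨Fin.cons (-ip w (cent (VV d st))) w, ?_, ?_⟩
    · intro h0
      apply hne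
      funext l
      have := congrFun h0 l.succ
      rwa [Fin.cons_succ] at this
    · funext i
      simp only [Matrix.mulVec, dotProduct, hom, Pi.zero_apply]
      rw [Fin.sum_univ_succ]
      simp only [Fin.cons_zero, Fin.cons_succ, one_mul]
      have h1 := hw i
      rw [hU', ip_sub] at h1
      have h2 : ∑ l, VV d st i l * w l = ip w (VV d st i) := by
        unfold ip
        exact Finset.sum_congr rfl fun l _ => mul_comm _ _
      rw [h2]
      linarith

/-! ### The theorem -/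

theorem rnd (scv : ScvStmt) (bdv : BdvStmt) (scu : ScuStmt) (scp : ScpStmt) (pos : PosStmt) :
    RndStmt := by
  intro S hbd hn
  have hrows := rowsQ_length S
  have hsol := sol_eq S
  have hbox : ∀ x ∈ Sat S.1 (rowsQ S), ∀ l, |x l| ≤ 2 ^ (4 * ssize S ^ 2) := by
    intro x hx l
    rw [← hsol] at hx
    exact Pool.Agent.Helper82.FR.big S hbd x hx l
  have hinv := inv scv bdv scu S.1 hn (rowsQ S) hrows (4 * ssize S ^ 2) hbox
  obtain ⟨hwf, hdet, hin⟩ := hinv (500 * (ssize S + 1) ^ 6)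
  refine ⟨?_, ?_⟩
  · intro hlast
    by_contra hvol
    have hpos : 0 < vol (sol S) := lt_of_le_of_ne ENNReal.toReal_nonneg (Ne.symm hvol)
    obtain ⟨y, hy⟩ := pos S hbd hpos
    have hfs := find_some S.1 (rowsQ S) (4 * ssize S ^ 2) (500 * (ssize S + 1) ^ 6) hlast
    have : Nonempty (List Qn × Qn) := ⟨([], Qn.zero)⟩
    choose! rr hrr using hfs
    have hySat : y ∈ Sat S.1 (rowsQ S) := by
      rw [← hsol]
      apply hy
      intro l
      exact ⟨le_refl _, by
        have : (0 : ℝ) < 1 / 2 ^ (20 * (ssize S + 1) ^ 3) := by positivity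
        linarith⟩
    have hL : S.1 ≤ ssize S := by
      unfold ssize
      exact Nat.le_add_right _ _
    obtain ⟨x, hx1, hx2⟩ := scp S.1 hn
      (fun k => VV S.1 (rst S.1 (rowsQ S) (4 * ssize S ^ 2) k))
      (fun k => lv (S.1 + 1) (phs S.1 (rst S.1 (rowsQ S) (4 * ssize S ^ 2) k) (rr k)))
      (2 ^ (4 * ssize S ^ 2)) (500 * (ssize S + 1) ^ 6) (by positivity)
      ((Pool.Agent.Helper60.FR.cpv S.1 hn).2 (4 * ssize S ^ 2)).2
      (by
        intro k hk
        obtain ⟨hw, -, hi⟩ := hinv k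
        have hf := hrr k hk.le
        have hr := List.mem_of_find?_eq_some hf
        have hbd' : bad S.1 (rst S.1 (rowsQ S) (4 * ssize S ^ 2) k) (rr k) = true :=
          List.find?_some hf
        obtain ⟨h1, h2, h3, h4, h5, h6⟩ := step scv bdv scu S.1 hn _ (rr k) hw (hrows _ hr)
        have h7 : rst S.1 (rowsQ S) (4 * ssize S ^ 2) (k + 1) =
            scut S.1 (rst S.1 (rowsQ S) (4 * ssize S ^ 2) k)
              (phs S.1 (rst S.1 (rowsQ S) (4 * ssize S ^ 2) k) (rr k)) := by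
          rw [rst_succ]
          unfold rstep
          rw [hf]
          rfl
        rw [h7]
        exact ⟨h2, h3, h6 y (hi y hySat) (hySat _ hr) hbd'⟩)
      (1 / 2 ^ (20 * (ssize S + 1) ^ 3)) y (by positivity) (big_T S.1 (ssize S) hn hL)
    apply hx2
    apply hin
    rw [← hsol]
    exact hy x hx1
  · intro hb
    refine ⟨rnd_aux bdv S.1 hn (stI S) hwf (rowsQ S) hrows hdet hin hb, ?_⟩
    unfold vol
    congr 1
    have h1 : {u : Fin S.1 → ℝ | ∀ r ∈ crows S.1 (stI S) (rowsQ S),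
        -r.2.val ≤ ip (lv S.1 r.1) u} =
        (fun u => u + cent (VV S.1 (stI S))) ⁻¹' (sol S) := by
      ext u
      rw [hsol]
      exact crows_iff bdv S.1 hn (stI S) hwf (rowsQ S) hrows u
    rw [h1, measure_preimage_add_right]

end

end Pool.Agent.Helper67.BW
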